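import Pool.Agent.V5helper82.GPs.Sub
import Pool.Agent.Y37.GF.PS

/-!
# Values: substitution, the inverse of a polynomial, the logarithm
-/

set_option autoImplicit false

open PowerSeries Filter Topology
open Pool.Agent.Y113 Pool.Agent.Y37.GF

namespace Pool.Agent.V5helper82.GPs

/-- exchange of a double sum, with a majorant -/
theorem dbl {b : ℕ → ℝ} {A A' : ℕ → ℕ → ℝ} (hA : ∀ d m, |A d m| ≤ A' d m) {r x : ℝ} (hr : 0 ≤ r)
    (hx : ∀ d, HasSum (fun m => A' d m * r ^ m) (x ^ d)) (hb : Summable fun d => |b d| * x ^ d)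
    {z : ℝ} (hz : |z| ≤ r) : Summable fun p : ℕ × ℕ => ‖b p.1 * (A p.1 p.2 * z ^ p.2)‖ := by
  have hA' : ∀ d m, 0 ≤ A' d m := fun d m => (abs_nonneg _).trans (hA d m)
  have hpos : 0 ≤ fun p : ℕ × ℕ => |b p.1| * (A' p.1 p.2 * r ^ p.2) := by
    intro p
    have := hA' p.1 p.2
    exact mul_nonneg (abs_nonneg _) (mul_nonneg this (pow_nonneg hr _))
  have h3a : ∀ d, Summable fun m => |b d| * (A' d m * r ^ m) := fun d =>
    (hx d).summable.mul_left |b d|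
  have h3b : Summable fun d => ∑' m, |b d| * (A' d m * r ^ m) := by
    refine hb.congr fun d => ?_
    rw [tsum_mul_left, (hx d).tsum_eq]
  have h3 : Summable fun p : ℕ × ℕ => |b p.1| * (A' p.1 p.2 * r ^ p.2) :=
    (summable_prod_of_nonneg hpos).2 ⟨h3a, h3b⟩
  refine Summable.of_nonneg_of_le (fun _ => norm_nonneg _) (fun p => ?_) h3
  have := hA' p.1 p.2
  have := hA p.1 p.2
  rw [norm_mul, norm_mul, norm_pow, Real.norm_eq_abs, Real.norm_eq_abs, Real.norm_eq_abs]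
  gcongr

theorem dbl1 {b : ℕ → ℝ} {A A' : ℕ → ℕ → ℝ} (hA : ∀ d m, |A d m| ≤ A' d m) {r x : ℝ} (hr : 0 ≤ r)
    (hx : ∀ d, HasSum (fun m => A' d m * r ^ m) (x ^ d)) (hb : Summable fun d => |b d| * x ^ d)
    {c : ℕ → ℝ} (hc : ∀ m, c m = ∑' d, b d * A d m) : Summable fun m => |c m| * r ^ m := by
  have hrr : |r| ≤ r := by rw [abs_of_nonneg hr]
  have h4 := dbl hA hr hx hb hrr
  have h5 := h4.prod_symm
  have h6 := h5.prod
  refine Summable.of_nonneg_of_le (fun m => by positivity) (fun m => ?_) h6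
  have h7 := h5.prod_factor m
  simp only [Prod.swap_prod_mk] at h7 ⊢
  have h8 : ‖∑' d, b d * (A d m * r ^ m)‖ ≤ ∑' d, ‖b d * (A d m * r ^ m)‖ :=
    norm_tsum_le_tsum_norm h7
  refine le_trans (le_of_eq ?_) h8
  rw [hc m, Real.norm_eq_abs]
  have h9 : (∑' d, b d * (A d m * r ^ m)) = (∑' d, b d * A d m) * r ^ m := by
    rw [← tsum_mul_right]; congr 1; ext d; ring
  rw [h9, abs_mul, abs_of_nonneg (by positivity : 0 ≤ r ^ m)]

theorem dbl2 {b : ℕ → ℝ} {A A' : ℕ → ℕ → ℝ} (hA : ∀ d m, |A d m| ≤ A' d m) {r x : ℝ} (hr : 0 ≤ r)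
    (hx : ∀ d, HasSum (fun m => A' d m * r ^ m) (x ^ d)) (hb : Summable fun d => |b d| * x ^ d)
    {c : ℕ → ℝ} (hc : ∀ m, c m = ∑' d, b d * A d m) {z y : ℝ} (hz : |z| ≤ r)
    (hy : ∀ d, HasSum (fun m => A d m * z ^ m) (y ^ d)) :
    (∑' m, c m * z ^ m) = ∑' d, b d * y ^ d := by
  have h4 := (dbl hA hr hx hb hz).of_norm
  have h5 : (∑' m, ∑' d, b d * (A d m * z ^ m)) = ∑' d, ∑' m, b d * (A d m * z ^ m) :=
    Summable.tsum_comm (f := fun d m => b d * (A d m * z ^ m)) h4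
  have h6 : (∑' d, b d * y ^ d) = ∑' d, ∑' m, b d * (A d m * z ^ m) := by
    congr 1
    ext d
    rw [tsum_mul_left, (hy d).tsum_eq]
  rw [h6, ← h5]
  congr 1
  ext m
  rw [hc m, ← tsum_mul_right]
  congr 1
  ext d
  ring

/-- the majorant -/
noncomputable def maj (σ : ℚ⟦X⟧) : ℚ⟦X⟧ := PowerSeries.mk fun m => |coeff m σ|

lemma maj_pow (σ : ℚ⟦X⟧) (d m : ℕ) : |coeff m (σ ^ d)| ≤ coeff m (maj σ ^ d) := by
  induction d generalizing m with
  | zero =>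
    rw [pow_zero, pow_zero, coeff_one]
    split_ifs <;> simp
  | succ d ih =>
    rw [pow_succ, pow_succ, coeff_mul, coeff_mul]
    refine (Finset.abs_sum_le_sum_abs _ _).trans (Finset.sum_le_sum fun p _ => ?_)
    rw [abs_mul]
    refine mul_le_mul (ih _) ?_ (abs_nonneg _) ((abs_nonneg _).trans (ih _))
    rw [maj, coeff_mk]

/-- substitution of a series -/
theorem subst_gen {f σ : ℚ⟦X⟧} (hσ : constantCoeff σ = 0) {r ρ : ℝ} (hr : 0 ≤ r)
    (h1 : SR r σ) (h2 : ∑' m, |((coeff m σ : ℚ) : ℝ)| * r ^ m ≤ ρ) (hf : SR ρ f) :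
    SR r (f.subst σ) ∧ ∀ z, |z| ≤ r → E (f.subst σ) z = E f (E σ z) := by
  have hS : HasSubst σ := HasSubst.of_constantCoeff_zero' hσ
  have h1' : SR r (maj σ) := by
    refine h1.congr fun m => ?_
    rw [maj, coeff_mk]
    push_cast
    rw [abs_abs]
  have hx0 : E (maj σ) r = ∑' m, |((coeff m σ : ℚ) : ℝ)| * r ^ m := by
    unfold E
    congr 1
    ext m
    rw [maj, coeff_mk]
    push_cast
    rfl
  have hE0 : 0 ≤ E (maj σ) r := by
    rw [hx0]
    exact tsum_nonneg fun m => by positivity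
  have hrr : |r| ≤ r := by rw [abs_of_nonneg hr]
  have hEd : ∀ d, HasSum (fun m => ((coeff m (maj σ ^ d) : ℚ) : ℝ) * r ^ m) (E (maj σ) r ^ d) := by
    intro d
    rw [← E_pow hr h1' hrr d]
    exact (h1'.pow hr d).hasSum hrr
  have hEz : ∀ z, |z| ≤ r → ∀ d, HasSum (fun m => ((coeff m (σ ^ d) : ℚ) : ℝ) * z ^ m) (E σ z ^ d) := by
    intro z hz d
    rw [← E_pow hr h1 hz d]
    exact (h1.pow hr d).hasSum hz
  have hf' := hf.mono hE0 (hx0.le.trans h2)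
  have hA : ∀ d m, |((coeff m (σ ^ d) : ℚ) : ℝ)| ≤ ((coeff m (maj σ ^ d) : ℚ) : ℝ) := fun d m => by
    exact_mod_cast maj_pow σ d m
  have hc : ∀ m, ((coeff m (f.subst σ) : ℚ) : ℝ)
      = ∑' d, ((coeff d f : ℚ) : ℝ) * ((coeff m (σ ^ d) : ℚ) : ℝ) := by
    intro m
    have hfs := coeff_subst_finite' hS f m
    rw [coeff_subst' hS, finsum_eq_sum _ hfs]
    push_cast
    rw [tsum_eq_sum (s := hfs.toFinset)]
    · refine Finset.sum_congr rfl fun d _ => ?_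
      rw [smul_eq_mul]; push_cast; ring
    · intro d hd
      have hd' : ¬ (d ∈ Function.support fun d => coeff d f • coeff m (σ ^ d)) := fun h =>
        hd ((Set.Finite.mem_toFinset _).2 h)
      rw [Function.mem_support, not_not, smul_eq_mul] at hd'
      exact_mod_cast hd'
  exact ⟨dbl1 hA hr hEd hf' hc, fun z hz => dbl2 hA hr hEd hf' hc hz (hEz z hz)⟩

/-- series with geometric bounds converge near zero -/
lemma SR.of_SDc {f : ℚ⟦X⟧} (h : SDc f) : ∃ ρ : ℝ, 0 < ρ ∧ SR ρ f := by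
  obtain ⟨n, hn⟩ := h
  refine ⟨1 / (2 * 2 ^ n), by positivity, ?_⟩
  refine SR.of_bound (A := 2 ^ n) (B := 2 ^ n) (by positivity) (by positivity) ?_ fun m => ?_
  · have : (0 : ℝ) < 2 ^ n := by positivity
    field_simp
    norm_num
  · refine (hn.1 m).trans (le_of_eq ?_)
    rw [pow_succ, mul_comm]

/-- the majorant is small near zero -/
lemma small {σ : ℚ⟦X⟧} (hσ : constantCoeff σ = 0) {R ρ : ℝ} (hR : 0 < R) (h : SR R σ) (hρ : 0 < ρ) :
    ∃ r : ℝ, 0 < r ∧ r ≤ R ∧ ∑' m, |((coeff m σ : ℚ) : ℝ)| * r ^ m ≤ ρ := by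
  obtain ⟨M, hM⟩ : ∃ M, M = ∑' m, |((coeff m σ : ℚ) : ℝ)| * R ^ m := ⟨_, rfl⟩
  have hM0 : 0 ≤ M := by rw [hM]; exact tsum_nonneg fun m => by positivity
  refine ⟨R * min 1 (ρ / (M + 1)), by positivity, mul_le_of_le_one_right hR.le (min_le_left _ _), ?_⟩
  set s := min 1 (ρ / (M + 1)) with hs
  have hs0 : 0 < s := by positivity
  have h1 : ∀ m, |((coeff m σ : ℚ) : ℝ)| * (R * s) ^ m ≤ s * (|((coeff m σ : ℚ) : ℝ)| * R ^ m) := by
    intro m
    rcases Nat.eq_zero_or_pos m with rfl | hm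
    · rw [coeff_zero_eq_constantCoeff_apply, hσ]; simp
    · rw [mul_pow]
      have h2 : s ^ m ≤ s := by
        have := pow_le_pow_of_le_one hs0.le (min_le_left _ _) hm
        simpa using this
      calc |((coeff m σ : ℚ) : ℝ)| * (R ^ m * s ^ m) = (|((coeff m σ : ℚ) : ℝ)| * R ^ m) * s ^ m := by ring
        _ ≤ (|((coeff m σ : ℚ) : ℝ)| * R ^ m) * s := mul_le_mul_of_nonneg_left h2 (by positivity)
        _ = _ := by ring
  have h3 : Summable fun m => s * (|((coeff m σ : ℚ) : ℝ)| * R ^ m) := Summable.mul_left s h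
  have h4 : Summable fun m => |((coeff m σ : ℚ) : ℝ)| * (R * s) ^ m :=
    Summable.of_nonneg_of_le (fun m => by positivity) h1 h3
  refine (h4.tsum_le_tsum h1 h3).trans ?_
  rw [tsum_mul_left, ← hM]
  calc s * M ≤ ρ / (M + 1) * (M + 1) := mul_le_mul (min_le_right _ _) (by linarith) hM0 (by positivity)
    _ = ρ := by field_simp

lemma E_ps (p : Polynomial ℤ) (z : ℝ) : E (ps p) z = Polynomial.aeval z p := by
  unfold Y113.ps
  rw [E_poly, Polynomial.aeval_def, Polynomial.aeval_def, Polynomial.eval₂_map]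
  congr 1

lemma SR_ps (p : Polynomial ℤ) (r : ℝ) : SR r (ps p) := SR.poly _ _

/-- the value of the inverse -/
lemma E_inv {p : Polynomial ℤ} (h0 : p.coeff 0 ≠ 0) {r z : ℝ} (h : SR r (ps p)⁻¹) (hz : |z| ≤ r) :
    Polynomial.aeval z p ≠ 0 ∧ E (ps p)⁻¹ z = 1 / Polynomial.aeval z p := by
  have h1 := E_mul (SR_ps p r) h hz
  rw [inv_ps p h0, E_one, E_ps] at h1
  have h2 : Polynomial.aeval z p ≠ 0 := fun h3 => by rw [h3] at h1; simp at h1
  exact ⟨h2, by rw [eq_div_iff h2, mul_comm]; exact h1.symm⟩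

/-- the logarithm -/
noncomputable def lp (p : Polynomial ℤ) : ℚ⟦X⟧ :=
  PowerSeries.mk fun n => if n = 0 then 0 else coeff (n - 1) (ps (Polynomial.derivative p) * (ps p)⁻¹) / (n : ℚ)

lemma SDc.lp (p : Polynomial ℤ) (h0 : p.coeff 0 ≠ 0) : SDc (lp p) := by
  unfold GPs.lp
  exact SDc.integ ((SDc.ps _).mul (SDc.inv p h0))

lemma der_lp (p : Polynomial ℤ) : d⁄dX ℚ (lp p) = ps (Polynomial.derivative p) * (ps p)⁻¹ := by
  ext n
  rw [coeff_derivative, lp, coeff_mk, if_neg (by omega), Nat.add_sub_cancel]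
  have h1 : ((n + 1 : ℕ) : ℚ) ≠ 0 := by positivity
  have h2 : ((n + 1 : ℕ) : ℚ) = (n : ℚ) + 1 := by push_cast; rfl
  rw [← h2]
  exact div_mul_cancel₀ _ h1

lemma aeval_pos {p : Polynomial ℤ} (h0 : p.coeff 0 ≠ 0) {r z : ℝ} (h : ∀ x : ℝ, |x| ≤ r → Polynomial.aeval x p ≠ 0)
    (hz : |z| ≤ r) : 0 < Polynomial.aeval z p / ((p.coeff 0 : ℤ) : ℝ) := by
  have ha : ((p.coeff 0 : ℤ) : ℝ) ≠ 0 := by exact_mod_cast h0
  have e0 : Polynomial.aeval (0 : ℝ) p = ((p.coeff 0 : ℤ) : ℝ) := by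
    rw [Polynomial.aeval_def, Polynomial.eval₂_at_zero]; simp
  set φ : ℝ → ℝ := fun x => Polynomial.aeval x p / ((p.coeff 0 : ℤ) : ℝ) with hφ
  have hc : Continuous φ := (Polynomial.continuous_aeval p).div_const _
  by_contra hneg
  push Not at hneg
  have h1 : φ 0 = 1 := by simp only [hφ, e0]; exact div_self ha
  have h2 : (0 : ℝ) ∈ Set.uIcc (φ z) (φ 0) := by
    rw [h1, Set.mem_uIcc]
    left
    exact ⟨hneg, zero_le_one⟩
  obtain ⟨x, hx, hx0⟩ := intermediate_value_uIcc (hc.continuousOn (s := Set.uIcc z 0)) h2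
  have h3 : |x| ≤ |z| := by
    rw [Set.mem_uIcc] at hx
    rcases hx with ⟨h4, h5⟩ | ⟨h4, h5⟩
    · rw [abs_of_nonpos h5, abs_of_nonpos (h4.trans h5)]; linarith
    · rw [abs_of_nonneg h4, abs_of_nonneg (h4.trans h5)]; exact h5
  have h4 := h x (h3.trans hz)
  apply h4
  have h5 : Polynomial.aeval x p / ((p.coeff 0 : ℤ) : ℝ) = 0 := hx0
  rw [div_eq_zero_iff] at h5
  exact h5.resolve_right ha

lemma E_lp {p : Polynomial ℤ} (h0 : p.coeff 0 ≠ 0) {r : ℝ} (hi : SR r (ps p)⁻¹) (hl : SR r (lp p))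
    {z : ℝ} (hz : |z| < r) : E (lp p) z = Real.log (Polynomial.aeval z p / ((p.coeff 0 : ℤ) : ℝ)) := by
  have ha : ((p.coeff 0 : ℤ) : ℝ) ≠ 0 := by exact_mod_cast h0
  have hne : ∀ x : ℝ, |x| ≤ r → Polynomial.aeval x p ≠ 0 := fun x hx => (E_inv h0 hi hx).1
  have hr : 0 < r := (abs_nonneg _).trans_lt hz
  set φ : ℝ → ℝ := fun x => E (lp p) x - Real.log (Polynomial.aeval x p / ((p.coeff 0 : ℤ) : ℝ)) with hφ
  have hd : ∀ x ∈ Metric.ball (0 : ℝ) r, HasDerivAt φ 0 x := by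
    intro x hx
    rw [mem_ball_zero_iff, Real.norm_eq_abs] at hx
    have h1 := hasDerivAt_E hl hx
    rw [der_lp, E_mul (SR_ps _ r) hi hx.le, E_ps, (E_inv h0 hi hx.le).2] at h1
    have h2 : HasDerivAt (fun x : ℝ => Polynomial.aeval x p / ((p.coeff 0 : ℤ) : ℝ))
        (Polynomial.aeval x (Polynomial.derivative p) / ((p.coeff 0 : ℤ) : ℝ)) x :=
      (Polynomial.hasDerivAt_aeval p x).div_const _
    have h3 := h2.log (div_ne_zero (hne x hx.le) ha)
    have h4 := h1.sub h3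
    have h5 : Polynomial.aeval x (Polynomial.derivative p) * (1 / Polynomial.aeval x p) -
        Polynomial.aeval x (Polynomial.derivative p) / ((p.coeff 0 : ℤ) : ℝ) /
          (Polynomial.aeval x p / ((p.coeff 0 : ℤ) : ℝ)) = 0 := by
      rw [div_div_div_cancel_right₀ ha, mul_one_div, sub_self]
    rw [h5] at h4
    exact h4
  have hconv : Convex ℝ (Metric.ball (0 : ℝ) r) := convex_ball _ _
  have h1 := hconv.is_const_of_fderivWithin_eq_zero (𝕜 := ℝ) (f := φ)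
    (fun x hx => (hd x hx).differentiableAt.differentiableWithinAt)
    (fun x hx => by
      rw [fderivWithin_of_isOpen Metric.isOpen_ball hx]
      ext
      simp [(hd x hx).deriv])
    (x := z) (y := 0) (by rw [mem_ball_zero_iff, Real.norm_eq_abs]; exact hz) (Metric.mem_ball_self hr)
  have h2 : φ 0 = 0 := by
    simp only [hφ]
    have e0 : Polynomial.aeval (0 : ℝ) p = ((p.coeff 0 : ℤ) : ℝ) := by
      rw [Polynomial.aeval_def, Polynomial.eval₂_at_zero]; simp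
    have e1 : E (lp p) 0 = 0 := by
      unfold E
      rw [tsum_eq_single 0 fun m hm => by simp [hm]]
      simp [lp]
    rw [e0, e1, div_self ha, Real.log_one, sub_zero]
  rw [h2] at h1
  linarith [h1]

/-- the series `c x ^ d / p(x)` -/
noncomputable def rs (c d : ℕ) (p : Polynomial ℤ) : ℚ⟦X⟧ := C (c : ℚ) * X ^ d * (ps p)⁻¹

lemma const_rs (c d : ℕ) (p : Polynomial ℤ) (hd : 1 ≤ d) : constantCoeff (rs c d p) = 0 := by
  rw [rs, map_mul, map_mul, map_pow, constantCoeff_X, zero_pow (by omega)]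
  ring

lemma coeff_rs (c d : ℕ) (p : Polynomial ℤ) (m : ℕ) :
    coeff m (rs c d p) = if d ≤ m then (c : ℚ) * coeff (m - d) (ps p)⁻¹ else 0 := by
  rw [rs, mul_assoc, coeff_C_mul, coeff_X_pow_mul']
  split_ifs <;> simp

lemma rs_sg (c d : ℕ) (p : Polynomial ℤ) (hd : 1 ≤ d) (h0 : p.coeff 0 ≠ 0) :
    ∃ B : ℝ, 1 ≤ B ∧ Sg B (p.coeff 0) (rs c d p) := by
  obtain ⟨D, hD, hb⟩ := inv_bound p h0
  have hD1 : (1 : ℝ) ≤ D := by exact_mod_cast hD
  have hc0 : (0 : ℝ) ≤ c := by positivity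
  refine ⟨((c : ℝ) + 1) * D, by nlinarith, fun m => ?_, fun m => ?_⟩
  · rw [coeff_rs]
    split_ifs with hm
    · push_cast
      rw [abs_mul, Nat.abs_cast, mul_pow]
      refine mul_le_mul ?_ ((hb _).trans (pow_le_pow_right₀ hD1 (by omega))) (abs_nonneg _) (by positivity)
      calc (c : ℝ) ≤ (c : ℝ) + 1 := by linarith
        _ ≤ _ := le_self_pow₀ (by linarith) (by omega)
    · simp; positivity
  · rw [coeff_rs]
    split_ifs with hm
    · obtain ⟨z, hz⟩ := inv_int p h0 (m - d)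
      refine ⟨(p.coeff 0) ^ (d - 1) * c * z, ?_⟩
      push_cast
      rw [← hz]
      rw [show m = (d - 1) + (m - d + 1) by omega, pow_add, show d - 1 + (m - d + 1) - d = m - d by omega]
      ring
    · exact ⟨0, by simp⟩

lemma SDc.rs (c d : ℕ) (p : Polynomial ℤ) (h0 : p.coeff 0 ≠ 0) : SDc (rs c d p) := by
  unfold GPs.rs
  refine SDc.mul ?_ (SDc.inv p h0)
  refine SDc.mul ?_ ?_
  · have := SDc.int (c : ℤ)
    simpa using this
  · induction d with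
    | zero => simpa using SDc.one
    | succ n ih => rw [pow_succ]; exact ih.mul SDc.X

lemma E_rs {c d : ℕ} {p : Polynomial ℤ} (h0 : p.coeff 0 ≠ 0) {r z : ℝ} (h : SR r (ps p)⁻¹) (hz : |z| ≤ r) :
    E (rs c d p) z = c * z ^ d / Polynomial.aeval z p := by
  have hr : 0 ≤ r := (abs_nonneg _).trans hz
  rw [rs, E_mul ((SR.C _ r).mul hr ((SR.X r).pow hr d)) h hz, E_mul (SR.C _ r) ((SR.X r).pow hr d) hz,
    E_pow hr (SR.X r) hz, E_C, E_X, (E_inv h0 h hz).2]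
  push_cast
  ring

theorem subst_sdc (c d : ℕ) (p : Polynomial ℤ) (hd : 1 ≤ d) (h0 : p.coeff 0 ≠ 0) {f : ℚ⟦X⟧} (hf : SDc f) :
    SDc (f.subst (rs c d p)) := by
  obtain ⟨n, hn⟩ := hf
  obtain ⟨B, hB, hs⟩ := rs_sg c d p hd h0
  have h1 := SDp.subst_sg hn (const_rs c d p hd) hB h0 hs
  obtain ⟨N, hN⟩ := pow_unbounded_of_one_lt (2 ^ 3 * 2 ^ n * B * |((p.coeff 0 : ℤ) : ℝ)|) (one_lt_two : (1 : ℝ) < 2)
  exact ⟨N, h1.mono hN.le⟩

theorem values (c d : ℕ) (p : Polynomial ℤ) (hd : 1 ≤ d) (h0 : p.coeff 0 ≠ 0) {f : ℚ⟦X⟧} (hf : SDc f) :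
    ∃ r : ℝ, 0 < r ∧ ∀ z : ℝ, |z| < r →
      0 < Polynomial.aeval z p / ((p.coeff 0 : ℤ) : ℝ) ∧
      E (lp p) z = Real.log (Polynomial.aeval z p / ((p.coeff 0 : ℤ) : ℝ)) ∧
      E (f.subst (rs c d p)) z = E f (c * z ^ d / Polynomial.aeval z p) := by
  obtain ⟨ρ, hρ, hfρ⟩ := SR.of_SDc hf
  obtain ⟨r1, hr1, h1⟩ := SR.of_SDc (SDc.inv p h0)
  obtain ⟨r2, hr2, h2⟩ := SR.of_SDc (SDc.lp p h0)
  obtain ⟨r3, hr3, h3⟩ := SR.of_SDc (SDc.rs c d p h0)
  obtain ⟨r, hr, hrR, h4⟩ := small (const_rs c d p hd) (lt_min hr1 (lt_min hr2 hr3))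
    (h3.mono (lt_min hr1 (lt_min hr2 hr3)).le ((min_le_right _ _).trans (min_le_right _ _))) hρ
  have e1 : r ≤ r1 := hrR.trans (min_le_left _ _)
  have e2 : r ≤ r2 := hrR.trans ((min_le_right _ _).trans (min_le_left _ _))
  have e3 : r ≤ r3 := hrR.trans ((min_le_right _ _).trans (min_le_right _ _))
  refine ⟨r, hr, fun z hz => ⟨aeval_pos h0 (fun x hx => (E_inv h0 h1 hx).1) (hz.le.trans e1),
    E_lp h0 (h1.mono hr.le e1) (h2.mono hr.le e2) hz, ?_⟩⟩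
  rw [(subst_gen (const_rs c d p hd) hr.le (h3.mono hr.le e3) h4 hfρ).2 z hz.le, E_rs h0 h1 (hz.le.trans e1)]

end Pool.Agent.V5helper82.GPs
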