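import Pool.Agent.Y113.P.SD

/-!
# Substitution of a power series of geometric growth: sizes and denominators
-/

set_option autoImplicit false

open PowerSeries Finset.HasAntidiagonal
open Pool.Agent.Y113

namespace Pool.Agent.V5helper82.GPs

/-- geometric sizes and denominators, no shift -/
def Sg (B : ℝ) (a : ℤ) (σ : ℚ⟦X⟧) : Prop :=
  (∀ m, |((coeff m σ : ℚ) : ℝ)| ≤ B ^ m) ∧ ∀ m, ∃ z : ℤ, (a : ℚ) ^ m * coeff m σ = z

lemma Sg.pow_bound {B : ℝ} {a : ℤ} {σ : ℚ⟦X⟧} (hB : 1 ≤ B) (h : Sg B a σ) (d m : ℕ) :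
    |((coeff m (σ ^ d) : ℚ) : ℝ)| ≤ 2 ^ (m + d) * B ^ m := by
  induction d generalizing m with
  | zero =>
    rw [pow_zero, coeff_one]
    split_ifs
    · simp only [Rat.cast_one, abs_one]
      have h1 : (1 : ℝ) ≤ 2 ^ (m + 0) := one_le_pow₀ (by norm_num)
      have h2 : (1 : ℝ) ≤ B ^ m := one_le_pow₀ hB
      nlinarith
    · simp; positivity
  | succ d ih =>
    rw [pow_succ, coeff_mul]
    push_cast
    refine (Finset.abs_sum_le_sum_abs _ _).trans ?_
    have h1 : ∀ p ∈ antidiagonal m, |((coeff p.1 (σ ^ d) : ℚ) : ℝ) * ((coeff p.2 σ : ℚ) : ℝ)| ≤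
        2 ^ p.1 * (2 ^ d * B ^ m) := by
      intro p hp
      rw [Finset.HasAntidiagonal.mem_antidiagonal] at hp
      rw [abs_mul]
      refine (mul_le_mul (ih p.1) (h.1 p.2) (abs_nonneg _) (by positivity)).trans (le_of_eq ?_)
      rw [← hp, pow_add, pow_add B]
      ring
    refine (Finset.sum_le_sum h1).trans ?_
    rw [← Finset.sum_mul]
    have h3 : ∑ p ∈ antidiagonal m, (2 : ℝ) ^ p.1 ≤ 2 ^ (m + 1) := by
      rw [Finset.Nat.sum_antidiagonal_eq_sum_range_succ_mk]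
      simp only
      have := geom_sum_eq (x := (2 : ℝ)) (by norm_num) (m + 1)
      rw [this]
      norm_num
    calc (∑ p ∈ antidiagonal m, (2 : ℝ) ^ p.1) * (2 ^ d * B ^ m) ≤
        2 ^ (m + 1) * (2 ^ d * B ^ m) := mul_le_mul_of_nonneg_right h3 (by positivity)
      _ = _ := by
        rw [show m + (d + 1) = (m + 1) + d by ring, pow_add _ (m + 1) d]
        ring

lemma Sg.pow_int {B : ℝ} {a : ℤ} {σ : ℚ⟦X⟧} (h : Sg B a σ) (d m : ℕ) :
    ∃ z : ℤ, (a : ℚ) ^ m * coeff m (σ ^ d) = z := by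
  induction d generalizing m with
  | zero =>
    rw [pow_zero, coeff_one]
    split_ifs with hm
    · exact ⟨1, by simp [hm]⟩
    · exact ⟨0, by simp⟩
  | succ d ih =>
    choose z hz using ih
    choose w hw using h.2
    refine ⟨∑ p ∈ antidiagonal m, z p.1 * w p.2, ?_⟩
    rw [pow_succ, coeff_mul, Finset.mul_sum]
    push_cast
    refine Finset.sum_congr rfl fun p hp => ?_
    rw [Finset.HasAntidiagonal.mem_antidiagonal] at hp
    rw [← hz, ← hw, ← hp, pow_add]
    ring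

lemma coeff_pow_zero {σ : ℚ⟦X⟧} (hσ : constantCoeff σ = 0) (d m : ℕ) (h : m < d) : coeff m (σ ^ d) = 0 := by
  apply coeff_of_lt_order
  refine lt_of_lt_of_le ?_ (le_order_pow_of_constantCoeff_eq_zero d hσ)
  exact_mod_cast h

lemma coeff_subst_fin {σ : ℚ⟦X⟧} (hσ : constantCoeff σ = 0) (m : ℕ) (f : ℚ⟦X⟧) :
    coeff m (f.subst σ) = ∑ d ∈ Finset.range (m + 1), coeff d f * coeff m (σ ^ d) := by
  rw [coeff_subst' (PowerSeries.HasSubst.of_constantCoeff_zero' hσ)]
  rw [finsum_eq_sum_of_support_subset (s := Finset.range (m + 1))]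
  · rfl
  · intro d hd
    rw [Function.mem_support] at hd
    rw [Finset.coe_range, Set.mem_Iio]
    by_contra h
    apply hd
    rw [coeff_pow_zero hσ d m (by omega), smul_zero]

lemma SDp.subst_sg {A B : ℝ} {a : ℤ} {f σ : ℚ⟦X⟧} (h : SDp A f) (hσ : constantCoeff σ = 0) (hB : 1 ≤ B)
    (ha : a ≠ 0) (hs : Sg B a σ) : SDp (2 ^ 3 * A * B * |(a : ℝ)|) (f.subst σ) := by
  have hA := h.one_le
  have hA0 : 0 < A := by linarith
  have ha1 : (1 : ℝ) ≤ |(a : ℝ)| := by exact_mod_cast Int.one_le_abs ha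
  have hB0 : 0 < B := by linarith
  refine ⟨fun m => ?_, fun m => ?_⟩
  · rw [coeff_subst_fin hσ]
    push_cast
    refine (Finset.abs_sum_le_sum_abs _ _).trans ?_
    refine (Finset.sum_le_card_nsmul _ _ (A ^ (m + 1) * (2 ^ (m + m) * B ^ (m + 1))) fun d hd => ?_).trans ?_
    · rw [Finset.mem_range] at hd
      rw [abs_mul]
      refine mul_le_mul ((h.1 d).trans (pow_le_pow_right₀ hA (by omega))) ((hs.pow_bound hB d m).trans ?_)
        (abs_nonneg _) (by positivity)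
      refine mul_le_mul (pow_le_pow_right₀ (by norm_num) (by omega)) (pow_le_pow_right₀ hB (by omega)) (by positivity)
        (by positivity)
    · rw [nsmul_eq_mul, Finset.card_range]
      push_cast
      calc ((m : ℝ) + 1) * (A ^ (m + 1) * (2 ^ (m + m) * B ^ (m + 1)))
          ≤ 2 ^ (m + 1) * (A ^ (m + 1) * ((2 ^ 2) ^ (m + 1) * B ^ (m + 1))) := by
            refine mul_le_mul ?_ ?_ (by positivity) (by positivity)
            · exact (succ_le_two_pow m).trans (pow_le_pow_right₀ (by norm_num) (by omega))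
            · refine mul_le_mul_of_nonneg_left ?_ (by positivity)
              refine mul_le_mul_of_nonneg_right ?_ (by positivity)
              rw [← pow_mul]
              exact pow_le_pow_right₀ (by norm_num) (by omega)
        _ = (2 ^ 3 * A * B) ^ (m + 1) := by
            rw [← mul_pow, ← mul_pow, ← mul_pow]
            congr 1
            ring
        _ ≤ _ := pow_le_pow_left₀ (by positivity) (le_mul_of_one_le_right (by positivity) ha1) _
  · obtain ⟨d, hd0, hd, hd'⟩ := h.2 m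
    refine ⟨d * a.natAbs ^ (m + 1), Nat.mul_pos hd0 (pow_pos (Int.natAbs_pos.2 ha) _), ?_, fun j hj => ?_⟩
    · have e1 : ((a.natAbs : ℕ) : ℝ) = |(a : ℝ)| := by
        rw [Nat.cast_natAbs]; push_cast; rfl
      push_cast
      rw [e1]
      calc (d : ℝ) * |(a : ℝ)| ^ (m + 1) ≤ A ^ (m + 1) * |(a : ℝ)| ^ (m + 1) :=
            mul_le_mul_of_nonneg_right hd (by positivity)
        _ = (A * |(a : ℝ)|) ^ (m + 1) := by rw [mul_pow]
        _ ≤ _ := by
            refine pow_le_pow_left₀ (by positivity) ?_ _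
            refine mul_le_mul_of_nonneg_right ?_ (by positivity)
            nlinarith [mul_le_mul hA hB zero_le_one hA0.le]
    · choose! b hb using hd'
      choose z hz using fun e => hs.pow_int e j
      have e2 : ∃ w : ℤ, ((a.natAbs : ℕ) : ℚ) ^ (m + 1) = w * (a : ℚ) ^ j := by
        have h1 : (a : ℤ) ^ j ∣ ((a.natAbs : ℕ) : ℤ) ^ (m + 1) :=
          (pow_dvd_pow_of_dvd (Int.dvd_natAbs.2 dvd_rfl) j).trans (pow_dvd_pow _ (by omega))
        obtain ⟨w, hw⟩ := h1
        refine ⟨w, ?_⟩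
        have h2 : (((a.natAbs : ℕ) : ℤ) : ℚ) ^ (m + 1) = (a : ℚ) ^ j * w := by
          exact_mod_cast hw
        rw [mul_comm, ← h2]
        simp
      obtain ⟨w, hw⟩ := e2
      refine ⟨w * ∑ e ∈ Finset.range (j + 1), b e * z e, ?_⟩
      rw [coeff_subst_fin hσ]
      push_cast
      rw [hw, Finset.mul_sum, Finset.mul_sum]
      refine Finset.sum_congr rfl fun e he => ?_
      rw [Finset.mem_range] at he
      rw [← hb e (by omega), ← hz e]
      ring

/-- integration -/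
lemma SDc.integ {w : ℚ⟦X⟧} (h : SDc w) :
    SDc (PowerSeries.mk fun n => if n = 0 then 0 else coeff (n - 1) w / (n : ℚ)) := by
  obtain ⟨n, hn⟩ := h
  have hA := hn.one_le
  refine ⟨n + 8, fun m => ?_, fun m => ?_⟩
  · rw [coeff_mk]
    split_ifs with hm
    · simp
    · push_cast
      have h1 : (1 : ℝ) ≤ m := by exact_mod_cast Nat.one_le_iff_ne_zero.2 hm
      rw [abs_div, abs_of_nonneg (by positivity : (0 : ℝ) ≤ (m : ℝ))]
      refine (div_le_self (abs_nonneg _) h1).trans ((hn.1 _).trans ?_)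
      rw [Nat.sub_add_cancel (by omega)]
      calc ((2 : ℝ) ^ n) ^ m ≤ (2 ^ n) ^ (m + 1) := pow_le_pow_right₀ hA (by omega)
        _ ≤ _ := pow_le_pow_left₀ (by positivity) (pow_le_pow_right₀ (by norm_num) (by omega)) _
  · obtain ⟨d, hd0, hd, hd'⟩ := hn.2 m
    refine ⟨d * Nat.lcmUpto m, Nat.mul_pos hd0 (Nat.lcmUpto_pos m), ?_, fun j hj => ?_⟩
    · push_cast
      calc (d : ℝ) * Nat.lcmUpto m ≤ (2 ^ n) ^ (m + 1) * (2 ^ 8) ^ m :=
            mul_le_mul hd (lcm_bound m) (by positivity) (by positivity)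
        _ ≤ (2 ^ n) ^ (m + 1) * (2 ^ 8) ^ (m + 1) :=
            mul_le_mul_of_nonneg_left (pow_le_pow_right₀ (by norm_num) (by omega)) (by positivity)
        _ = _ := by rw [← mul_pow, ← pow_add]
    · rw [coeff_mk]
      split_ifs with h0
      · exact ⟨0, by simp⟩
      · obtain ⟨a, ha⟩ := hd' (j - 1) (by omega)
        obtain ⟨b, hb⟩ := lcm_div (Nat.one_le_iff_ne_zero.2 h0) hj
        refine ⟨a * b, ?_⟩
        push_cast
        rw [← ha, ← hb]
        ring

/-- the coefficients of an integer polynomial as a power series -/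
lemma coeff_ps (p : Polynomial ℤ) (m : ℕ) : coeff m (ps p) = ((p.coeff m : ℤ) : ℚ) := by
  simp [ps]

/-- the inverse of an integer polynomial -/
lemma inv_ps (p : Polynomial ℤ) (h0 : p.coeff 0 ≠ 0) :
    ps p * (ps p)⁻¹ = 1 := by
  refine PowerSeries.mul_inv_cancel _ ?_
  rw [← coeff_zero_eq_constantCoeff_apply, coeff_ps]
  exact_mod_cast h0

lemma inv_rec (p : Polynomial ℤ) (h0 : p.coeff 0 ≠ 0) (m : ℕ) :
    (p.coeff 0 : ℚ) * coeff m (ps p)⁻¹ = (if m = 0 then 1 else 0) -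
      ∑ j ∈ Finset.range m, (p.coeff (j + 1) : ℚ) * coeff (m - (j + 1)) (ps p)⁻¹ := by
  have h1 := congrArg (coeff m) (inv_ps p h0)
  rw [coeff_mul, Finset.Nat.sum_antidiagonal_eq_sum_range_succ_mk, Finset.sum_range_succ', coeff_one] at h1
  simp only [coeff_ps, Nat.sub_zero] at h1
  rw [← h1]
  ring

lemma inv_bound (p : Polynomial ℤ) (h0 : p.coeff 0 ≠ 0) :
    ∃ D : ℕ, 1 ≤ D ∧ ∀ m, |((coeff m (ps p)⁻¹ : ℚ) : ℝ)| ≤ (D : ℝ) ^ m := by
  set S : ℕ := ∑ j ∈ Finset.range (p.natDegree + 1), (p.coeff (j + 1)).natAbs with hS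
  refine ⟨S + 1, by omega, fun m => ?_⟩
  have hS1 : ∀ m, ∑ j ∈ Finset.range m, |((p.coeff (j + 1) : ℤ) : ℝ)| ≤ (S : ℝ) := by
    intro m
    have e1 : (S : ℝ) = ∑ j ∈ Finset.range (p.natDegree + 1), |((p.coeff (j + 1) : ℤ) : ℝ)| := by
      rw [hS]
      push_cast
      refine Finset.sum_congr rfl fun j _ => ?_
      rw [Nat.cast_natAbs]; push_cast; rfl
    rw [e1]
    rcases le_total m (p.natDegree + 1) with hm | hm
    · exact Finset.sum_le_sum_of_subset_of_nonneg (Finset.range_subset_range.2 hm) fun _ _ _ => abs_nonneg _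
    · refine le_of_eq (Finset.sum_subset (Finset.range_subset_range.2 hm) fun j _ hj => ?_).symm
      rw [Finset.mem_range] at hj
      rw [Polynomial.coeff_eq_zero_of_natDegree_lt (by omega)]
      simp
  have ha1 : (1 : ℝ) ≤ |((p.coeff 0 : ℤ) : ℝ)| := by exact_mod_cast Int.one_le_abs h0
  induction m using Nat.strong_induction_on with
  | _ m ih =>
    have hr := inv_rec p h0 m
    have hr' : ((p.coeff 0 : ℤ) : ℝ) * ((coeff m (ps p)⁻¹ : ℚ) : ℝ) = (if m = 0 then 1 else 0) -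
        ∑ j ∈ Finset.range m, ((p.coeff (j + 1) : ℤ) : ℝ) * ((coeff (m - (j + 1)) (ps p)⁻¹ : ℚ) : ℝ) := by
      have h2 := congrArg (fun q : ℚ => (q : ℝ)) hr
      push_cast at h2
      rw [h2]
      congr 1
      split_ifs <;> simp
    have h3 : |((coeff m (ps p)⁻¹ : ℚ) : ℝ)| ≤ |((p.coeff 0 : ℤ) : ℝ) * ((coeff m (ps p)⁻¹ : ℚ) : ℝ)| := by
      rw [abs_mul]
      exact le_mul_of_one_le_left (abs_nonneg _) ha1
    refine h3.trans ?_
    rw [hr']
    rcases Nat.eq_zero_or_pos m with rfl | hm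
    · simp
    · rw [if_neg (by omega), zero_sub, abs_neg]
      have hD1 : (1 : ℝ) ≤ ((S + 1 : ℕ) : ℝ) := by push_cast; linarith [show (0 : ℝ) ≤ S by positivity]
      calc |∑ j ∈ Finset.range m, ((p.coeff (j + 1) : ℤ) : ℝ) * ((coeff (m - (j + 1)) (ps p)⁻¹ : ℚ) : ℝ)|
          ≤ ∑ j ∈ Finset.range m, |((p.coeff (j + 1) : ℤ) : ℝ)| * ((S + 1 : ℕ) : ℝ) ^ (m - 1) := by
            refine (Finset.abs_sum_le_sum_abs _ _).trans (Finset.sum_le_sum fun j hj => ?_)
            rw [Finset.mem_range] at hj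
            rw [abs_mul]
            refine mul_le_mul_of_nonneg_left ((ih _ (by omega)).trans ?_) (abs_nonneg _)
            exact pow_le_pow_right₀ hD1 (by omega)
        _ ≤ (S : ℝ) * ((S + 1 : ℕ) : ℝ) ^ (m - 1) := by
            rw [← Finset.sum_mul]
            exact mul_le_mul_of_nonneg_right (hS1 m) (by positivity)
        _ ≤ ((S + 1 : ℕ) : ℝ) * ((S + 1 : ℕ) : ℝ) ^ (m - 1) := by
            refine mul_le_mul_of_nonneg_right ?_ (by positivity)
            push_cast; linarith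
        _ = _ := by rw [← pow_succ', Nat.sub_add_cancel hm]

lemma inv_int (p : Polynomial ℤ) (h0 : p.coeff 0 ≠ 0) (m : ℕ) :
    ∃ z : ℤ, (p.coeff 0 : ℚ) ^ (m + 1) * coeff m (ps p)⁻¹ = z := by
  induction m using Nat.strong_induction_on with
  | _ m ih =>
    choose! z hz using ih
    refine ⟨(p.coeff 0) ^ m * (if m = 0 then 1 else 0) -
      ∑ j ∈ Finset.range m, p.coeff (j + 1) * p.coeff 0 ^ j * z (m - (j + 1)), ?_⟩
    rw [pow_succ, mul_assoc, inv_rec p h0 m, mul_sub, Finset.mul_sum]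
    push_cast
    congr 1
    refine Finset.sum_congr rfl fun j hj => ?_
    rw [Finset.mem_range] at hj
    rw [← hz (m - (j + 1)) (by omega), show m = j + (m - (j + 1) + 1) by omega, pow_add]
    rw [show j + (m - (j + 1) + 1) - (j + 1) = m - (j + 1) by omega]
    ring

lemma SDc.inv (p : Polynomial ℤ) (h0 : p.coeff 0 ≠ 0) : SDc (ps p)⁻¹ := by
  obtain ⟨D, hD, hb⟩ := inv_bound p h0
  obtain ⟨n, hn⟩ : ∃ n : ℕ, D + (p.coeff 0).natAbs ≤ 2 ^ n := ⟨_, Nat.lt_two_pow_self.le⟩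
  have h1 : (D : ℝ) ≤ 2 ^ n := by exact_mod_cast (by omega : D ≤ 2 ^ n)
  have h2 : (((p.coeff 0).natAbs : ℕ) : ℝ) ≤ 2 ^ n := by
    exact_mod_cast (by omega : (p.coeff 0).natAbs ≤ 2 ^ n)
  have h3 : (1 : ℝ) ≤ 2 ^ n := one_le_pow₀ (by norm_num)
  refine ⟨n, fun m => ?_, fun m => ⟨(p.coeff 0).natAbs ^ (m + 1), pow_pos (Int.natAbs_pos.2 h0) _, ?_, fun j hj => ?_⟩⟩
  · calc |((coeff m (ps p)⁻¹ : ℚ) : ℝ)| ≤ (D : ℝ) ^ m := hb m
      _ ≤ (2 ^ n) ^ m := pow_le_pow_left₀ (by positivity) h1 _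
      _ ≤ _ := pow_le_pow_right₀ h3 (by omega)
  · push_cast
    exact pow_le_pow_left₀ (by positivity) h2 _
  · obtain ⟨z, hz⟩ := inv_int p h0 j
    have h4 : (p.coeff 0 : ℤ) ^ (j + 1) ∣ (((p.coeff 0).natAbs : ℕ) : ℤ) ^ (m + 1) :=
      (pow_dvd_pow_of_dvd (Int.dvd_natAbs.2 dvd_rfl) _).trans (pow_dvd_pow _ (by omega))
    obtain ⟨w, hw⟩ := h4
    have h5 : ((((p.coeff 0).natAbs : ℕ) : ℤ) : ℚ) ^ (m + 1) = (p.coeff 0 : ℚ) ^ (j + 1) * w := by
      exact_mod_cast hw
    refine ⟨w * z, ?_⟩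
    rw [Int.cast_natCast] at h5
    push_cast
    rw [h5, ← hz]
    ring

lemma SDc.ps (p : Polynomial ℤ) : SDc (ps p) := by
  induction p using Polynomial.induction_on' with
  | add p q hp hq =>
    have : Y113.ps (p + q) = Y113.ps p + Y113.ps q := by simp [Y113.ps]
    rw [this]
    exact hp.add hq
  | monomial n a =>
    have : Y113.ps (Polynomial.monomial n a) = ((a : ℤ) : ℚ⟦X⟧) * X ^ n := by
      have hC : Polynomial.map (Int.castRingHom ℚ) (Polynomial.C a) = ((a : ℤ) : Polynomial ℚ) := by simp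
      rw [← Polynomial.C_mul_X_pow_eq_monomial]
      simp only [Y113.ps, Polynomial.map_mul, hC, Polynomial.map_pow, Polynomial.map_X, Polynomial.coe_mul,
        Polynomial.coe_pow, Polynomial.coe_X]
      congr 1
      exact map_intCast (Polynomial.coeToPowerSeries.ringHom (R := ℚ)) a
    rw [this]
    refine (SDc.int a).mul ?_
    clear this
    induction n with
    | zero => simpa using SDc.one
    | succ n ih => rw [pow_succ]; exact ih.mul SDc.X

end Pool.Agent.V5helper82.GPs
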